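import Pool.Agent.H70.EH.RL2
import Pool.Agent.H75.OM.TA

/-!
# PAR: formulas are not correlated with the parity
-/

set_option autoImplicit false

namespace Pool.Agent.H51.OM

open Finset Pool.Agent.H6.NB Pool.Agent.H70.OQ Pool.Agent.H70.EH Pool.Agent.H70.EI
open Pool.Agent.H78.XQ Pool.Agent.H75.OM
open Pool.Agent.H68.AC (PA Wt fd Ext ind)

namespace PAR

section

variable {V : Type} [Fintype V] [DecidableEq V]

/-- change one bit -/
def flp (v : V) (y : V → Bool) : V → Bool := Function.update y v (!y v)

theorem flp_flp (v : V) (y : V → Bool) : flp v (flp v y) = y := by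
  funext u
  unfold flp
  by_cases h : u = v
  · subst h
    simp
  · simp [Function.update_of_ne h]

/-- change one bit, as a permutation -/
def flpE (v : V) : (V → Bool) ≃ (V → Bool) where
  toFun := flp v
  invFun := flp v
  left_inv := flp_flp v
  right_inv := flp_flp v

theorem flp_same (v : V) (y : V → Bool) : flp v y v = !y v := by
  unfold flp
  simp

theorem flp_ne (v u : V) (y : V → Bool) (h : u ≠ v) : flp v y u = y u := by
  unfold flp
  simp [Function.update_of_ne h]

theorem par_flp_false (v : V) (y : V → Bool) (h : y v = false) : par (flp v y) = !par y := by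
  have h1 : (univ.filter fun i => flp v y i = true) = insert v (univ.filter fun i => y i = true) := by
    ext u
    simp only [Finset.mem_filter, Finset.mem_univ, true_and, Finset.mem_insert]
    by_cases hu : u = v
    · subst hu
      simp [flp_same, h]
    · simp [flp_ne v u y hu, hu]
  have h2 : v ∉ (univ.filter fun i => y i = true) := by simp [h]
  unfold par
  rw [h1, Finset.card_insert_of_notMem h2]
  rw [← decide_not]
  apply decide_eq_decide.2
  rw [Nat.odd_add_one]

theorem par_flp (v : V) (y : V → Bool) : par (flp v y) = !par y := by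
  cases h : y v with
  | false => exact par_flp_false v y h
  | true =>
    have h1 := par_flp_false v (flp v y) (by rw [flp_same, h]; rfl)
    rw [flp_flp] at h1
    rw [h1, Bool.not_not]

theorem sg_not (b : Bool) : sg (!b) = - sg b := by
  cases b <;> simp [sg]

theorem nv_le (κ : PA V) (v : V) (c : Bool) :
    nv κ none ≤ nv (Function.update κ v (some c)) none + 1 := by
  unfold nv
  have h : (univ.filter fun u => κ u = none) ⊆
      insert v (univ.filter fun u => Function.update κ v (some c) u = none) := by
    intro u hu
    simp only [Finset.mem_filter, Finset.mem_univ, true_and, Finset.mem_insert] at hu ⊢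
    by_cases h : u = v
    · exact Or.inl h
    · right
      rw [Function.update_of_ne h]
      exact hu
  exact (Finset.card_le_card h).trans (Finset.card_insert_le _ _)

/-- the sum for a tree -/
theorem tree (t : Pool.Agent.H68.AC.DT V) : ∀ κ : PA V, t.depth < nv κ none →
    ∑ y, rst κ (fun y => sg (par y) * bi (t.eval y)) y = 0 := by
  induction t with
  | leaf b =>
    intro κ h
    have h0 : 0 < nv κ none := lt_of_le_of_lt (Nat.zero_le _) h
    unfold nv at h0
    obtain ⟨v, hv⟩ := Finset.card_pos.1 h0
    simp only [Finset.mem_filter, Finset.mem_univ, true_and] at hv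
    have h1 : ∀ y, rst κ (fun y => sg (par y) * bi ((Pool.Agent.H68.AC.DT.leaf b).eval y)) (flp v y) =
        - rst κ (fun y => sg (par y) * bi ((Pool.Agent.H68.AC.DT.leaf b).eval y)) y := by
      intro y
      unfold rst
      have h2 : (fun u => (κ u).getD (flp v y u)) = flp v (fun u => (κ u).getD (y u)) := by
        funext u
        by_cases hu : u = v
        · subst hu
          rw [flp_same, flp_same, hv]
          rfl
        · rw [flp_ne _ _ _ hu, flp_ne _ _ _ hu]
      simp only [h2, par_flp, sg_not, Pool.Agent.H68.AC.DT.eval]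
      ring
    have h3 := Equiv.sum_comp (flpE v)
      (fun y => rst κ (fun y => sg (par y) * bi ((Pool.Agent.H68.AC.DT.leaf b).eval y)) y)
    have h4 : ∑ y, rst κ (fun y => sg (par y) * bi ((Pool.Agent.H68.AC.DT.leaf b).eval y))
        (flpE v y) = ∑ y, - rst κ (fun y => sg (par y) *
          bi ((Pool.Agent.H68.AC.DT.leaf b).eval y)) y :=
      Finset.sum_congr rfl fun y _ => h1 y
    rw [h4, Finset.sum_neg_distrib] at h3
    linarith
  | node v l r ihl ihr =>
    intro κ h
    have hd : max l.depth r.depth + 1 < nv κ none := h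
    have hl : l.depth ≤ max l.depth r.depth := le_max_left _ _
    have hr : r.depth ≤ max l.depth r.depth := le_max_right _ _
    cases hv : κ v with
    | some c =>
      cases c with
      | false =>
        rw [← ihl κ (by omega)]
        refine Finset.sum_congr rfl fun y _ => ?_
        unfold rst
        simp only [Pool.Agent.H68.AC.DT.eval, hv, Option.getD_some, cond_false]
      | true =>
        rw [← ihr κ (by omega)]
        refine Finset.sum_congr rfl fun y _ => ?_
        unfold rst
        simp only [Pool.Agent.H68.AC.DT.eval, hv, Option.getD_some, cond_true]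
    | none =>
      have e1 := ihl (Function.update κ v (some false)) (by
        have := nv_le κ v false
        omega)
      have e2 := ihr (Function.update κ v (some true)) (by
        have := nv_le κ v true
        omega)
      obtain ⟨G, hG⟩ : ∃ G : (V → Bool) → ℝ, G = rst κ (fun y => sg (par y) *
          bi ((Pool.Agent.H68.AC.DT.node v l r).eval y)) := ⟨_, rfl⟩
      have hz : ∀ (y : V → Bool), (fun u => (κ u).getD (y u)) v = y v := by
        intro y
        simp only [hv, Option.getD_none]
      have hu : ∀ (y : V → Bool) (c : Bool) (u : V),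
          (Function.update κ v (some c) u).getD (y u) =
            if u = v then c else (κ u).getD (y u) := by
        intro y c u
        by_cases h1 : u = v
        · subst h1
          simp
        · simp [Function.update_of_ne h1, h1]
      have hG1 : ∀ y, y v = false → G y + G (flp v y) =
          rst (Function.update κ v (some false)) (fun y => sg (par y) * bi (l.eval y)) y +
          rst (Function.update κ v (some true)) (fun y => sg (par y) * bi (r.eval y)) y := by
        intro y hy
        have a1 : (fun u => (Function.update κ v (some false) u).getD (y u)) =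
            fun u => (κ u).getD (y u) := by
          funext u
          rw [hu]
          split_ifs with h1
          · subst h1
            rw [hv, Option.getD_none, hy]
          · rfl
        have a2 : (fun u => (Function.update κ v (some true) u).getD (y u)) =
            fun u => (κ u).getD (flp v y u) := by
          funext u
          rw [hu]
          split_ifs with h1
          · subst h1
            rw [hv, Option.getD_none, flp_same, hy]
            rfl
          · rw [flp_ne v u y h1]
        rw [hG]
        unfold rst
        rw [a1, a2]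
        simp only [Pool.Agent.H68.AC.DT.eval, hv, Option.getD_none, hy, flp_same, Bool.not_false,
          cond_true, cond_false]
      have hG2 : ∀ y, G y + G (flp v y) =
          rst (Function.update κ v (some false)) (fun y => sg (par y) * bi (l.eval y)) y +
          rst (Function.update κ v (some true)) (fun y => sg (par y) * bi (r.eval y)) y := by
        intro y
        cases hy : y v with
        | false => exact hG1 y hy
        | true =>
          have h1 := hG1 (flp v y) (by rw [flp_same, hy]; rfl)
          rw [flp_flp] at h1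
          have h2 : ∀ (c : Bool) (F : (V → Bool) → ℝ), rst (Function.update κ v (some c)) F (flp v y) =
              rst (Function.update κ v (some c)) F y := by
            intro c F
            unfold rst
            congr 1
            funext u
            rw [hu, hu]
            split_ifs with h3
            · rfl
            · rw [flp_ne v u y h3]
          rw [h2, h2] at h1
          linarith
      have h3 := Equiv.sum_comp (flpE v) G
      have h4 : ∑ y, (G y + G (flpE v y)) =
          ∑ y, rst (Function.update κ v (some false)) (fun y => sg (par y) * bi (l.eval y)) y +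
          ∑ y, rst (Function.update κ v (some true)) (fun y => sg (par y) * bi (r.eval y)) y := by
        rw [← Finset.sum_add_distrib]
        exact Finset.sum_congr rfl fun y _ => hG2 y
      rw [Finset.sum_add_distrib, h3, e1, e2] at h4
      rw [← hG]
      linarith

theorem F_abs (y : V → Bool) (f : (V → Bool) → Bool) : |sg (par y) * bi (f y)| ≤ 1 := by
  rw [abs_mul]
  have h1 : |sg (par y)| = 1 := by
    unfold sg
    split_ifs <;> simp
  have h2 : |bi (f y)| ≤ 1 := by
    unfold bi
    split_ifs <;> simp
  rw [h1, one_mul]
  exact h2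

theorem mn_abs (F : (V → Bool) → ℝ) (h : ∀ y, |F y| ≤ 1) : |mn F| ≤ 1 := by
  unfold mn
  rw [abs_div, abs_of_pos (show (0 : ℝ) < 2 ^ Fintype.card V by positivity),
    div_le_one (by positivity)]
  calc |∑ y, F y| ≤ ∑ y, |F y| := Finset.abs_sum_le_sum_abs _ _
    _ ≤ ∑ _y : V → Bool, (1 : ℝ) := Finset.sum_le_sum fun y _ => h y
    _ = 2 ^ Fintype.card V := by
        rw [Finset.sum_const, Finset.card_univ, nsmul_eq_mul, mul_one, Fintype.card_fun,
          Fintype.card_bool]
        push_cast
        rfl

theorem ind_nonneg (P : Prop) : 0 ≤ ind P := by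
  unfold ind
  split_ifs <;> norm_num

theorem ind_true (P : Prop) (h : P) : ind P = 1 := by
  unfold ind
  rw [if_pos h]

end

end PAR

open PAR in
theorem pf_PAR (h1 : Pool.Agent.H78.XQ.T_SWL) (h2 : Pool.Agent.H78.XQ.T_HOE) :
    Pool.Agent.H75.OM.T_PAR := by
  intro V _ _ S d w f hw hcard hf
  obtain ⟨Bad, hBad, hGood⟩ := h1 V S d w f hw hf
  have hwr : (1 : ℝ) ≤ w := by exact_mod_cast hw
  obtain ⟨q, hq⟩ : ∃ q : ℝ, q = 1 / (128 * (w : ℝ)) := ⟨_, rfl⟩
  have hq0 : 0 < q := by rw [hq]; positivity
  have hq1 : q ≤ 1 := by
    rw [hq, div_le_one (by positivity)]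
    linarith
  obtain ⟨p, hp⟩ : ∃ p : ℝ, p = q ^ (d + 1) := ⟨_, rfl⟩
  have hp0 : 0 < p := by rw [hp]; positivity
  have hrt : rt w d = p := by
    unfold rt
    rw [hp, hq]
  have hH := h2 V (d + 1) q (p / 2) hq0 hq1 (by linarith)
  rw [← hq] at hBad
  rw [← hp] at hH
  obtain ⟨M, hM⟩ : ∃ M : ℝ, M = Fintype.card V := ⟨_, rfl⟩
  have hcr : 4 * (w : ℝ) * (128 * w) ^ (d + 1) ≤ M := by
    rw [hM]
    exact_mod_cast hcard
  have hpL : (128 * (w : ℝ)) ^ (d + 1) * p = 1 := by
    rw [hp, ← mul_pow, hq]
    have : 128 * (w : ℝ) * (1 / (128 * w)) = 1 := by field_simp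
    rw [this, one_pow]
  have hpM : 4 * (w : ℝ) ≤ p * M := by
    have h3 := mul_le_mul_of_nonneg_right hcr hp0.le
    have h4 : 4 * (w : ℝ) * (128 * w) ^ (d + 1) * p = 4 * w := by
      rw [mul_assoc, hpL, mul_one]
    rw [h4] at h3
    linarith
  rw [← hM] at hH
  rw [hrt, ← hM]
  obtain ⟨F, hF⟩ : ∃ F : (V → Bool) → ℝ, F = fun y => sg (par y) * bi (f y) := ⟨_, rfl⟩
  rw [← hF]
  have hF1 : ∀ y, |F y| ≤ 1 := fun y => by rw [hF]; exact F_abs y f
  have hpt : ∀ R : Fin (d + 1) → PA V, |mn (rst (fd R (d + 1)) F)| ≤
      ind (Bad R) + ind (¬ (|(nv (fd R (d + 1)) none : ℝ) - p * M| ≤ p / 2 * M ∧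
        |(nv (fd R (d + 1)) (some true) : ℝ) - (1 - p) / 2 * M| ≤ p / 2 * M)) := by
    intro R
    have hr := mn_abs (rst (fd R (d + 1)) F) (fun y => hF1 _)
    by_cases h3 : Bad R
    · have e2 := ind_nonneg (¬ (|(nv (fd R (d + 1)) none : ℝ) - p * M| ≤ p / 2 * M ∧
        |(nv (fd R (d + 1)) (some true) : ℝ) - (1 - p) / 2 * M| ≤ p / 2 * M))
      rw [ind_true _ h3]
      linarith
    by_cases h4 : |(nv (fd R (d + 1)) none : ℝ) - p * M| ≤ p / 2 * M ∧
        |(nv (fd R (d + 1)) (some true) : ℝ) - (1 - p) / 2 * M| ≤ p / 2 * M
    · obtain ⟨t, ht, hft⟩ := hGood R h3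
      have h5 := (abs_le.1 h4.1).1
      have h6 : t.depth < nv (fd R (d + 1)) none := by
        have : (t.depth : ℝ) < nv (fd R (d + 1)) none := by
          have h7 : (t.depth : ℝ) ≤ w := by exact_mod_cast ht
          linarith
        exact_mod_cast this
      have h8 : rst (fd R (d + 1)) F = rst (fd R (d + 1)) (fun y => sg (par y) * bi (t.eval y)) := by
        funext y
        unfold rst
        rw [hF]
        simp only
        rw [hft]
        intro v b hv
        simp [hv]
      have h9 : mn (rst (fd R (d + 1)) F) = 0 := by
        rw [h8]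
        unfold mn
        rw [tree t _ h6, zero_div]
      rw [h9, abs_zero]
      exact add_nonneg (ind_nonneg _) (ind_nonneg _)
    · have e1 := ind_nonneg (Bad R)
      rw [ind_true _ h4]
      linarith
  have hW0 : ∀ R : Fin (d + 1) → PA V, 0 ≤ Wt q (1 / 2) R := fun R =>
    Pool.Agent.H90.AC.Wt_nonneg hq0.le hq1 (by norm_num) (by norm_num) R
  have hmn := Pool.Agent.H70.EH.RL2.sum_mn (d + 1) q F
  rw [← hmn]
  calc |∑ R : Fin (d + 1) → PA V, Wt q (1 / 2) R * mn (rst (fd R (d + 1)) F)|
      ≤ ∑ R : Fin (d + 1) → PA V, |Wt q (1 / 2) R * mn (rst (fd R (d + 1)) F)| :=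
        Finset.abs_sum_le_sum_abs _ _
    _ ≤ ∑ R : Fin (d + 1) → PA V, (Wt q (1 / 2) R * ind (Bad R) + Wt q (1 / 2) R *
        ind (¬ (|(nv (fd R (d + 1)) none : ℝ) - p * M| ≤ p / 2 * M ∧
        |(nv (fd R (d + 1)) (some true) : ℝ) - (1 - p) / 2 * M| ≤ p / 2 * M))) := by
        refine Finset.sum_le_sum fun R _ => ?_
        rw [abs_mul, abs_of_nonneg (hW0 R), ← mul_add]
        exact mul_le_mul_of_nonneg_left (hpt R) (hW0 R)
    _ ≤ er S d w + 4 * Real.exp (-(M * p ^ 2 / 16)) := by
        rw [Finset.sum_add_distrib]
        have e : M * (p / 2) ^ 2 / 4 = M * p ^ 2 / 16 := by ring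
        rw [e] at hH
        unfold er
        exact add_le_add hBad hH

end Pool.Agent.H51.OM
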